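import Pool.Agent.helper64.AX.SpecD

set_option autoImplicit false

namespace Pool.Agent.AX

open Matrix

theorem CSL : CSL_stmt := by
  intro p _ D _ _ N hN hx
  have _ := hN
  have P : Sylow p D := default
  refine ⟨P, ?_, ?_⟩
  · intro g hg
    obtain ⟨k, hk⟩ := P.isPGroup' ⟨g, hg⟩
    refine ⟨k, ?_⟩
    have h1 := congrArg Subtype.val hk
    simpa using h1
  · intro x
    have hq : IsPGroup p (D ⧸ N) := by
      intro y
      obtain ⟨z, rfl⟩ := QuotientGroup.mk_surjective y
      obtain ⟨k, hk⟩ := hx z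
      refine ⟨k, ?_⟩
      rw [← QuotientGroup.mk_pow]
      exact (QuotientGroup.eq_one_iff _).mpr hk
    have hs : Function.Surjective (QuotientGroup.mk' N) := QuotientGroup.mk'_surjective N
    have Q : Sylow p (D ⧸ N) := P.mapSurjective hs
    have htop : (P : Subgroup D).map (QuotientGroup.mk' N) = ⊤ := by
      have h1 : IsPGroup p (⊤ : Subgroup (D ⧸ N)) := hq.to_subgroup ⊤
      have h2 := (P.mapSurjective hs).is_maximal' h1 le_top
      have h3 : ((P.mapSurjective hs : Sylow p (D ⧸ N)) : Subgroup (D ⧸ N)) = (P : Subgroup D).map (QuotientGroup.mk' N) := rfl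
      rw [← h3]
      exact h2.symm
    have hmem : (QuotientGroup.mk' N x) ∈ (P : Subgroup D).map (QuotientGroup.mk' N) := by
      rw [htop]
      exact Subgroup.mem_top _
    obtain ⟨x', hx', he⟩ := Subgroup.mem_map.mp hmem
    refine ⟨x', hx', ?_⟩
    exact QuotientGroup.eq.mp he.symm

end Pool.Agent.AX
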