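import Pool.Agent.helper64.AX.SpecD

set_option autoImplicit false

namespace Pool.Agent.AX

open Matrix

theorem DAR : DAR_stmt := by
  intro q e m c hq he hd hm h
  obtain ⟨r, rfl⟩ : ∃ r, q = r + 2 := ⟨q - 2, by omega⟩
  have e1 : r + 2 - 2 = r := by omega
  have e2 : r + 2 - 1 = r + 1 := by omega
  rw [e1] at h
  rw [e2] at hd ⊢
  have h1 : (r + 2) * (c * (1 + m * r)) = (r + 2) * ((1 + m * (r + 2)) * e) := by
    linear_combination h
  have h2 : c * (1 + m * r) = (1 + m * (r + 2)) * e := Nat.eq_of_mul_eq_mul_left (by omega) h1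
  have h3 : (1 + m * r) ∣ 2 * m * e := by
    have h4 : (1 + m * r) ∣ (1 + m * r) * e + 2 * m * e := ⟨c, by linear_combination h2.symm⟩
    exact (Nat.dvd_add_right (Dvd.intro _ rfl)).mp h4
  have hcop : Nat.Coprime (1 + m * r) m := by
    rw [Nat.coprime_comm]
    have : Nat.Coprime m (1 + m * r) := by
      rw [Nat.coprime_add_mul_left_right]
      exact Nat.coprime_one_right m
    exact this
  have h5 : (1 + m * r) ∣ 2 * e := by
    have h6 : (1 + m * r) ∣ m * (2 * e) := by
      have e3 : m * (2 * e) = 2 * m * e := by ring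
      rw [e3]
      exact h3
    exact hcop.dvd_of_dvd_mul_left h6
  have he' : e ≤ r + 1 := Nat.le_of_dvd (by omega) hd
  have h7 : 1 + m * r ≤ 2 * e := Nat.le_of_dvd (by omega) h5
  have hm3 : m < 3 := by
    by_contra h8
    have h9 : 3 * r ≤ m * r := Nat.mul_le_mul_right r (by omega)
    omega
  have hm2 : m ≠ 2 := by
    rintro rfl
    have h8 : Nat.Coprime (1 + 2 * r) 2 := by
      rw [Nat.coprime_comm]
      rw [Nat.coprime_two_left]
      exact ⟨r, by omega⟩
    have h9 : (1 + 2 * r) ∣ e := h8.dvd_of_dvd_mul_left h5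
    have h10 := Nat.le_of_dvd (by omega) h9
    omega
  have hm1 : m = 1 := by omega
  refine ⟨hm1, ?_⟩
  rw [hm1] at h5
  have e4 : 1 + 1 * r = r + 1 := by ring
  rw [e4] at h5
  exact h5

end Pool.Agent.AX
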