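import Pool.Agent.helper64.AX.SpecD

set_option autoImplicit false

namespace Pool.Agent.AX

open Matrix

theorem DNP (hDSY : DSY_stmt) : DNP_stmt := by
  intro p _ Z H P hH hno hPH hnorm hPE
  by_contra hne
  obtain ⟨x, -, hx⟩ := (hDSY p Z H hH).1 P hPH hPE hne
  obtain ⟨h, hh, hhx⟩ := hno x
  obtain ⟨⟨g, hg⟩, hg0⟩ := Subgroup.ne_bot_iff_exists_ne_one.mp hne
  have hg1 : g ≠ 1 := fun h1 => hg0 (Subtype.ext h1)
  obtain ⟨z, hz⟩ := hH.one g (hPH hg) hg1 (hPE g hg)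
  have h1 := (hz x).mp (hx g hg)
  have h2 := hx _ (hnorm h⁻¹ (H.inv_mem hh) g hg)
  rw [inv_inv, Equiv.Perm.mul_apply, Equiv.Perm.mul_apply, Equiv.Perm.inv_eq_iff_eq] at h2
  have h3 := (hz (h x)).mp h2
  exact hhx (h3.trans h1.symm)

end Pool.Agent.AX
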