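import Pool.Agent.helper64.AX.SpecD

set_option autoImplicit false

namespace Pool.Agent.AX

open Matrix

lemma PMK_det {κ : Type} [Field κ] (g : GL (Fin 2) κ) : g 0 0 * g 1 1 - g 0 1 * g 1 0 ≠ 0 := by
  have h := (g.isUnit.map Matrix.detMonoidHom).ne_zero
  have e : Matrix.detMonoidHom (g : Matrix (Fin 2) (Fin 2) κ) = g 0 0 * g 1 1 - g 0 1 * g 1 0 := by
    rw [Matrix.coe_detMonoidHom, Matrix.det_fin_two]
  rw [← e]
  exact h

lemma PMK_one {κ : Type} [Field κ] (g : GL (Fin 2) κ) : pm κ g = 1 ↔ ∃ c : κ, (g : Matrix (Fin 2) (Fin 2) κ) = c • 1 := by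
  have hdet := PMK_det g
  constructor
  · intro h
    have hz : ∀ z, pm κ g z = z := by
      intro z
      rw [h]
      rfl
    have h10 : g 1 0 = 0 := by
      by_contra h0
      have h1 := (pm_infty g).2 h0
      rw [hz] at h1
      exact OnePoint.infty_ne_coe _ h1
    rw [h10] at hdet
    have h11 : g 1 1 ≠ 0 := by
      intro h0
      apply hdet
      rw [h0]
      ring
    have h2 := (pm_some g 0).2 (by rw [h10]; simpa using h11)
    rw [hz, h10] at h2
    have h3 := OnePoint.coe_injective h2
    have h01 : g 0 1 = 0 := by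
      have h4 : (g 0 0 * 0 + g 0 1) / (0 * 0 + g 1 1) = 0 := h3.symm
      rw [div_eq_zero_iff] at h4
      rcases h4 with h4 | h4
      · linear_combination h4
      · exfalso
        apply h11
        linear_combination h4
    have h5 := (pm_some g 1).2 (by rw [h10]; simpa using h11)
    rw [hz, h10] at h5
    have h6 := OnePoint.coe_injective h5
    have h00 : g 0 0 = g 1 1 := by
      have h7 : (g 0 0 * 1 + g 0 1) / (0 * 1 + g 1 1) = 1 := h6.symm
      have h8 : (0 * 1 + g 1 1) ≠ 0 := by
        rw [zero_mul, zero_add]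
        exact h11
      rw [div_eq_one_iff_eq h8, h01] at h7
      linear_combination h7
    refine ⟨g 1 1, ?_⟩
    ext i j
    fin_cases i <;> fin_cases j
    · simpa using h00
    · simpa using h01
    · simpa using h10
    · simp
  · rintro ⟨c, hc⟩
    have h00 : g 0 0 = c := by
      have := congrFun (congrFun hc 0) 0
      simpa using this
    have h01 : g 0 1 = 0 := by
      have := congrFun (congrFun hc 0) 1
      simpa using this
    have h10 : g 1 0 = 0 := by
      have := congrFun (congrFun hc 1) 0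
      simpa using this
    have h11 : g 1 1 = c := by
      have := congrFun (congrFun hc 1) 1
      simpa using this
    have hc0 : c ≠ 0 := by
      rintro rfl
      apply hdet
      rw [h00, h01]
      ring
    ext z
    rw [Equiv.Perm.one_apply]
    induction z using OnePoint.rec with
    | infty => exact (pm_infty g).1 h10
    | coe k =>
      rw [(pm_some g k).2 (by rw [h10, h11]; simpa using hc0)]
      rw [h00, h01, h10, h11]
      apply congrArg
      rw [zero_mul, zero_add, add_zero, mul_comm, mul_div_assoc, div_self hc0, mul_one]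

lemma PMK_two {κ : Type} [Field κ] (g h : GL (Fin 2) κ) :
    pm κ g = pm κ h ↔ ∃ c : κ, (g : Matrix (Fin 2) (Fin 2) κ) = c • (h : Matrix (Fin 2) (Fin 2) κ) := by
  have e1 : pm κ g = pm κ h ↔ pm κ (g * h⁻¹) = 1 := by
    rw [map_mul, map_inv, mul_inv_eq_one]
  rw [e1, PMK_one]
  apply exists_congr
  intro c
  have e2 : ((g * h⁻¹ : GL (Fin 2) κ) : Matrix (Fin 2) (Fin 2) κ) = (g : Matrix (Fin 2) (Fin 2) κ) * ((h⁻¹ : GL (Fin 2) κ) : Matrix (Fin 2) (Fin 2) κ) := rfl
  have e3 : ((h⁻¹ : GL (Fin 2) κ) : Matrix (Fin 2) (Fin 2) κ) * (h : Matrix (Fin 2) (Fin 2) κ) = 1 := h.inv_mul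
  have e4 : (h : Matrix (Fin 2) (Fin 2) κ) * ((h⁻¹ : GL (Fin 2) κ) : Matrix (Fin 2) (Fin 2) κ) = 1 := h.mul_inv
  rw [e2]
  constructor
  · intro h1
    have h2 := congrArg (fun M => M * (h : Matrix (Fin 2) (Fin 2) κ)) h1
    beta_reduce at h2
    rw [Matrix.mul_assoc, e3, Matrix.mul_one, Matrix.smul_mul, Matrix.one_mul] at h2
    exact h2
  · intro h1
    rw [h1, Matrix.smul_mul, e4]

theorem PMK : PMK_stmt := by
  intro κ _
  refine ⟨PMK_one, PMK_two, ?_⟩
  intro x y hxy
  induction x using OnePoint.rec with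
  | infty =>
    induction y using OnePoint.rec with
    | infty => exact absurd rfl hxy
    | coe b =>
      have hd : (!![(1 : κ), b; 0, 1]).det ≠ 0 := by simp [det_fin_two]
      refine ⟨GeneralLinearGroup.mkOfDetNeZero !![1, b; 0, 1] hd, ?_, ?_⟩
      · exact (pm_infty _).1 rfl
      · have h1 := (pm_some (GeneralLinearGroup.mkOfDetNeZero !![1, b; 0, 1] hd) 0).2
          (by change (0 : κ) * 0 + 1 ≠ 0; simp)
        rw [h1]
        apply congrArg
        change ((1 : κ) * 0 + b) / (0 * 0 + 1) = b
        simp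
  | coe a =>
    induction y using OnePoint.rec with
    | infty =>
      have hd : (!![a, 1; (1 : κ), 0]).det ≠ 0 := by simp [det_fin_two]
      refine ⟨GeneralLinearGroup.mkOfDetNeZero !![a, 1; 1, 0] hd, ?_, ?_⟩
      · have h1 := (pm_infty (GeneralLinearGroup.mkOfDetNeZero !![a, 1; 1, 0] hd)).2 (by change (1 : κ) ≠ 0; simp)
        rw [h1]
        apply congrArg
        change a / 1 = a
        simp
      · exact (pm_some (GeneralLinearGroup.mkOfDetNeZero !![a, 1; 1, 0] hd) 0).1 (by change (1 : κ) * 0 + 0 = 0; simp)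
    | coe b =>
      have hab : a ≠ b := fun h => hxy (by rw [h])
      have hd : (!![a, b; (1 : κ), 1]).det ≠ 0 := by
        rw [det_fin_two_of]
        intro h
        apply hab
        linear_combination h
      refine ⟨GeneralLinearGroup.mkOfDetNeZero !![a, b; 1, 1] hd, ?_, ?_⟩
      · have h1 := (pm_infty (GeneralLinearGroup.mkOfDetNeZero !![a, b; 1, 1] hd)).2 (by change (1 : κ) ≠ 0; simp)
        rw [h1]
        apply congrArg
        change a / 1 = a
        simp
      · have h1 := (pm_some (GeneralLinearGroup.mkOfDetNeZero !![a, b; 1, 1] hd) 0).2 (by change (1 : κ) * 0 + 1 ≠ 0; simp)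
        rw [h1]
        apply congrArg
        change (a * 0 + b) / (1 * 0 + 1) = b
        simp

end Pool.Agent.AX
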