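import Pool.Agent.helper64.AX.SpecD

set_option autoImplicit false

namespace Pool.Agent.AX

open Matrix
open scoped Pointwise

/-- the elements of `p`-power order fixing `x` form a subgroup -/
def DSY_U {p : ℕ} {Z : Type} {H : Subgroup (Equiv.Perm Z)} (hH : FPA p H) (x : Z) : Subgroup (Equiv.Perm Z) where
  carrier := Us p H x
  mul_mem' := by
    rintro a b ⟨ha1, ha2, ha3⟩ ⟨hb1, hb2, hb3⟩
    refine ⟨H.mul_mem ha1 hb1, ?_, hH.mul a ha1 b hb1 x ha2 hb2 ha3 hb3⟩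
    rw [Equiv.Perm.mul_apply, hb2, ha2]
  one_mem' := ⟨H.one_mem, rfl, 0, one_pow _⟩
  inv_mem' := by
    rintro a ⟨ha1, ha2, k, ha3⟩
    refine ⟨H.inv_mem ha1, ?_, k, ?_⟩
    · rw [Equiv.Perm.inv_eq_iff_eq]
      exact ha2.symm
    · rw [inv_pow, ha3, inv_one]

lemma DSY_pe {p : ℕ} {G : Type*} [Group G] {g : G} (h : G) (hg : PE p g) : PE p (h * g * h⁻¹) := by
  obtain ⟨k, hk⟩ := hg
  exact ⟨k, by rw [conj_pow, hk, mul_one, mul_inv_cancel]⟩

lemma DSY_one (p : ℕ) [Fact p.Prime] (Z : Type) (H : Subgroup (Equiv.Perm Z)) (hH : FPA p H)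
    (P : Subgroup (Equiv.Perm Z)) (hPH : P ≤ H) (hPE : ∀ g ∈ P, PE p g) (hne : P ≠ ⊥) :
    ∃ x ∈ Om p H, ∀ g ∈ P, g x = x := by
  have hPf : Finite P := (hH.fin.subset (fun g hg => hPH hg) : (P : Set (Equiv.Perm Z)).Finite).to_subtype
  have hPG : IsPGroup p P := by
    rintro ⟨g, hg⟩
    obtain ⟨k, hk⟩ := hPE g hg
    exact ⟨k, Subtype.ext hk⟩
  have hnt : Nontrivial P := (Subgroup.nontrivial_iff_ne_bot P).mpr hne
  have hc := hPG.center_nontrivial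
  obtain ⟨⟨⟨z, hzP⟩, hzc⟩, hz1⟩ := exists_ne (1 : Subgroup.center P)
  have hz1' : z ≠ 1 := by
    rintro rfl
    exact hz1 rfl
  obtain ⟨x, hx⟩ := hH.one z (hPH hzP) hz1' (hPE z hzP)
  refine ⟨x, ⟨z, hPH hzP, hz1', hPE z hzP, (hx x).mpr rfl⟩, ?_⟩
  intro g hg
  have h1 := Subgroup.mem_center_iff.mp hzc ⟨g, hg⟩
  have h2 : g * z = z * g := congrArg Subtype.val h1
  apply (hx (g x)).mp
  rw [← Equiv.Perm.mul_apply, ← h2, Equiv.Perm.mul_apply, (hx x).mpr rfl]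

lemma DSY_max (p : ℕ) [Fact p.Prime] (Z : Type) (H : Subgroup (Equiv.Perm Z)) (hH : FPA p H) (x : Z) (hx : x ∈ Om p H) :
    IsPGroup p ((DSY_U hH x).subgroupOf H) ∧ ∀ Q : Subgroup H, IsPGroup p Q → (DSY_U hH x).subgroupOf H ≤ Q → Q = (DSY_U hH x).subgroupOf H := by
  constructor
  · rintro ⟨⟨g, hg⟩, hg'⟩
    obtain ⟨h1, h2, k, hk⟩ := (Subgroup.mem_subgroupOf.mp hg' : g ∈ Us p H x)
    exact ⟨k, Subtype.ext (Subtype.ext hk)⟩
  · intro Q hQ hle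
    obtain ⟨u, hu, hu1, hup, hux⟩ := hx
    have huQ : (⟨u, hu⟩ : H) ∈ Q := hle (Subgroup.mem_subgroupOf.mpr ⟨hu, hux, hup⟩)
    have hPE : ∀ g ∈ Q.map H.subtype, PE p g := by
      intro g hg
      obtain ⟨g', hg', rfl⟩ := Subgroup.mem_map.mp hg
      obtain ⟨k, hk⟩ := hQ ⟨g', hg'⟩
      refine ⟨k, ?_⟩
      have h1 := congrArg Subtype.val (congrArg Subtype.val hk)
      simpa using h1
    have hPH : Q.map H.subtype ≤ H := by
      intro g hg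
      obtain ⟨g', hg', rfl⟩ := Subgroup.mem_map.mp hg
      exact g'.2
    have huP : u ∈ Q.map H.subtype := Subgroup.mem_map.mpr ⟨⟨u, hu⟩, huQ, rfl⟩
    have hne : Q.map H.subtype ≠ ⊥ := by
      intro h0
      rw [h0] at huP
      exact hu1 (Subgroup.mem_bot.mp huP)
    obtain ⟨x', -, hx'⟩ := DSY_one p Z H hH _ hPH hPE hne
    obtain ⟨z, hz⟩ := hH.one u hu hu1 hup
    have h1 : x' = x := ((hz x').mp (hx' u huP)).trans ((hz x).mp hux).symm
    apply le_antisymm _ hle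
    intro g hg
    rw [Subgroup.mem_subgroupOf]
    have hgP : (g : Equiv.Perm Z) ∈ Q.map H.subtype := Subgroup.mem_map.mpr ⟨g, hg, rfl⟩
    refine ⟨g.2, ?_, hPE g hgP⟩
    rw [← h1]
    exact hx' g hgP

/-- the Sylow subgroup -/
def DSY_S (p : ℕ) [Fact p.Prime] (Z : Type) (H : Subgroup (Equiv.Perm Z)) (hH : FPA p H) (x : Z) (hx : x ∈ Om p H) : Sylow p H where
  toSubgroup := (DSY_U hH x).subgroupOf H
  isPGroup' := (DSY_max p Z H hH x hx).1
  is_maximal' := fun {Q} h1 h2 => (DSY_max p Z H hH x hx).2 Q h1 h2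

theorem DSY : DSY_stmt := by
  intro p _ Z H hH
  have hHf : Finite H := hH.fin.to_subtype
  refine ⟨DSY_one p Z H hH, ?_, ?_, ?_⟩
  · intro x hx y hy
    obtain ⟨h, hh⟩ := MulAction.exists_smul_eq H (DSY_S p Z H hH x hx) (DSY_S p Z H hH y hy)
    refine ⟨h, h.2, ?_⟩
    obtain ⟨u, hu, hu1, hup, huy⟩ := hy
    have hmem : (⟨u, hu⟩ : H) ∈ (h • (DSY_S p Z H hH x hx) : Sylow p H) := by
      rw [hh]
      exact Subgroup.mem_subgroupOf.mpr ⟨hu, huy, hup⟩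
    have hmem2 : (⟨u, hu⟩ : H) ∈ MulAut.conj h • ((DSY_S p Z H hH x hx : Sylow p H) : Subgroup H) := hmem
    rw [Subgroup.mem_pointwise_smul_iff_inv_smul_mem] at hmem2
    have h3 : ((h⁻¹ * ⟨u, hu⟩ * h : H) : Equiv.Perm Z) ∈ Us p H x := by
      have h4 : ((MulAut.conj h)⁻¹ • (⟨u, hu⟩ : H)) = h⁻¹ * ⟨u, hu⟩ * h := by
        rw [← map_inv, MulAut.smul_def, MulAut.conj_apply, inv_inv]
      rw [h4] at hmem2
      exact Subgroup.mem_subgroupOf.mp hmem2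
    have h5 := h3.2.1
    have h6 : ((h⁻¹ * ⟨u, hu⟩ * h : H) : Equiv.Perm Z) = (h : Equiv.Perm Z)⁻¹ * u * (h : Equiv.Perm Z) := rfl
    rw [h6, Equiv.Perm.mul_apply, Equiv.Perm.mul_apply, Equiv.Perm.inv_eq_iff_eq] at h5
    obtain ⟨z, hz⟩ := hH.one u hu hu1 hup
    exact ((hz _).mp h5).trans ((hz y).mp huy).symm
  · rintro x ⟨g, hg, hg1, hgp, hgx⟩ h hh
    refine ⟨h * g * h⁻¹, H.mul_mem (H.mul_mem hh hg) (H.inv_mem hh), ?_, DSY_pe h hgp, ?_⟩
    · intro h1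
      apply hg1
      rw [mul_inv_eq_one] at h1
      exact mul_eq_left.mp h1
    · have h2 : h⁻¹ (h x) = x := by
        rw [← Equiv.Perm.mul_apply, inv_mul_cancel]
        rfl
      rw [Equiv.Perm.mul_apply, Equiv.Perm.mul_apply, h2, hgx]
  · intro x hx
    have h1 := Sylow.card_eq_multiplicity (DSY_S p Z H hH x hx)
    have h2 : Nat.card (DSY_S p Z H hH x hx) = (Us p H x).ncard := by
      have hle : DSY_U hH x ≤ H := fun g hg => hg.1
      have h3 : Nat.card ((DSY_U hH x).subgroupOf H) = Nat.card (DSY_U hH x) :=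
        Nat.card_congr (Subgroup.subgroupOfEquivOfLe hle).toEquiv
      have h4 : Nat.card (DSY_U hH x) = (Us p H x).ncard := rfl
      rw [← h4, ← h3]
      rfl
    rw [h2] at h1
    refine ⟨h1, ?_⟩
    by_contra h0
    have h5 : (Nat.card H).factorization p = 0 := by omega
    rw [h5, pow_zero, Set.ncard_eq_one] at h1
    obtain ⟨a, ha⟩ := h1
    obtain ⟨u, hu, hu1, hup, hux⟩ := hx
    have h6 : u ∈ Us p H x := ⟨hu, hux, hup⟩
    have h7 : (1 : Equiv.Perm Z) ∈ Us p H x := ⟨H.one_mem, rfl, 0, one_pow _⟩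
    rw [ha] at h6 h7
    exact hu1 (h6.trans h7.symm)

end Pool.Agent.AX
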